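import Pool.Agent.Y271.RO.Stm
import Pool.Agent.Y454.NK.LIM

/-!
# Project RO: weak limits of approximate chains
-/

set_option autoImplicit false

namespace Pool.Agent.Y406.RO.WLIM

open Set Metric Filter Topology
open scoped InnerProductSpace
open Pool.Agent.Y271.RO (IsChain)
open Pool.Agent.Y454.NK (wlim)

variable {H : Type} [NormedAddCommGroup H] [InnerProductSpace ℂ H] [CompleteSpace H]

lemma wT (U : Ultrafilter ℕ) {v : ℕ → H} {w : H}
    (hw : ∀ y, Tendsto (fun n => ⟪v n, y⟫_ℂ) U (𝓝 ⟪w, y⟫_ℂ)) (T : H →L[ℂ] H) (y : H) :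
    Tendsto (fun n => ⟪T (v n), y⟫_ℂ) U (𝓝 ⟪T w, y⟫_ℂ) := by
  have h2 := hw ((ContinuousLinearMap.adjoint T) y)
  simp only [ContinuousLinearMap.adjoint_inner_right] at h2
  exact h2

lemma wc (U : Ultrafilter ℕ) {v : ℕ → H} {w : H}
    (hw : ∀ y, Tendsto (fun n => ⟪v n, y⟫_ℂ) U (𝓝 ⟪w, y⟫_ℂ)) (c : ℂ) (y : H) :
    Tendsto (fun n => ⟪c • v n, y⟫_ℂ) U (𝓝 ⟪c • w, y⟫_ℂ) := by
  simp only [inner_smul_left]
  exact (hw y).const_mul _

lemma w0 (U : Ultrafilter ℕ) (hU : (U : Filter ℕ) ≤ atTop) {e : ℕ → H}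
    (he : Tendsto e atTop (𝓝 0)) (y : H) : Tendsto (fun n => ⟪e n, y⟫_ℂ) U (𝓝 0) := by
  have h1 := (he.mono_left hU).inner (𝕜 := ℂ) (tendsto_const_nhds (x := y))
  rwa [inner_zero_left] at h1

lemma chain (U : Ultrafilter ℕ) (hU : (U : Filter ℕ) ≤ atTop) (T : H →L[ℂ] H) (c : ℂ) (r C : ℝ)
    (X : ℕ → ℕ → H) (hb : ∀ n k, ‖X n k‖ ≤ C * r ^ k)
    (h1 : ∀ k, Tendsto (fun n => T (X n k) - c • X n k - X n (k + 1)) atTop (𝓝 0)) :
    ∃ Y : ℕ → H, IsChain T c r Y ∧ ∀ k y, Tendsto (fun n => ⟪X n k, y⟫_ℂ) U (𝓝 ⟪Y k, y⟫_ℂ) := by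
  have hX : ∀ k, ∃ w : H, ‖w‖ ≤ C * r ^ k ∧
      ∀ y, Tendsto (fun n => ⟪X n k, y⟫_ℂ) U (𝓝 ⟪w, y⟫_ℂ) := fun k =>
    wlim U (fun n => X n k) _ (Eventually.of_forall fun n => hb n k)
  choose Y hYb hY using hX
  refine ⟨Y, ⟨fun k => ?_, C, hYb⟩, hY⟩
  rw [← sub_eq_zero]
  refine ext_inner_right ℂ fun y => ?_
  rw [inner_zero_left]
  have e1 := ((wT U (hY k) T y).sub (wc U (hY k) c y)).sub (hY (k + 1) y)
  simp only [← inner_sub_left] at e1
  exact tendsto_nhds_unique e1 (w0 U hU (h1 k) y)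

theorem main : Pool.Agent.Y271.RO.S_WLIM := by
  intro H _ _ _ T c r C X _ hb h1
  refine ⟨fun b x Z C' hZ h2 => ?_, fun h w => ?_⟩
  · set U : Ultrafilter ℕ := Ultrafilter.of atTop with hU
    have hle : (U : Filter ℕ) ≤ atTop := Ultrafilter.of_le _
    obtain ⟨Y, hY, hYl⟩ := chain U hle T c r C X hb h1
    obtain ⟨W, -, hW⟩ := wlim U Z C' (Eventually.of_forall hZ)
    refine ⟨Y, W, hY, ?_⟩
    have h3 : x - Y 0 - (T W - b • W) = 0 := by
      refine ext_inner_right ℂ fun y => ?_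
      rw [inner_zero_left]
      have e1 := ((tendsto_const_nhds (x := ⟪x, y⟫_ℂ) (f := (U : Filter ℕ))).sub (hYl 0 y)).sub
        ((wT U hW T y).sub (wc U hW b y))
      simp only [← inner_sub_left] at e1
      exact tendsto_nhds_unique e1 (w0 U hle h2 y)
    rw [sub_sub, sub_eq_zero] at h3
    exact h3
  · rw [tendsto_iff_ultrafilter]
    intro U hU
    obtain ⟨Y, hY, hYl⟩ := chain U hU T c r C X hb h1
    have h4 := hYl 0 w
    rw [h Y hY, inner_zero_left] at h4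
    have h5 := (Complex.continuous_conj.tendsto 0).comp h4
    rw [map_zero] at h5
    refine h5.congr fun n => ?_
    exact inner_conj_symm _ _

end Pool.Agent.Y406.RO.WLIM
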